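import Pool.Agent.Run7.h528.MB.Full

/-!
Both cone conjectures for varieties with an abelian group of automorphisms of rank `ρ - k` and `k`
invariant blocks of divisor classes.
-/

set_option autoImplicit false

open FF Pool.Agent.W602.GT Pool.Agent.Y172 Pool.Agent.R887 Pool.Agent.N110 Pool.Agent.N110.CC
open Run7.h528.MB

/-- Let `X` be a normal projective variety of dimension `n ≥ 1`, with generic point `y`. Let the
vectors `c P` be the classes of the prime divisors in `N¹(X) = ℤ ^ ρ` (if `X` is `ℚ`-factorial then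
`ρ` is the Picard number of `X`). Let `ℤ ^ r`, `r ≥ 1`, act on `X` by automorphisms `f_v`, given by
the automorphisms `φ v = f_v^*` of the function field, and suppose that `f_v` has positive entropy
(the first dynamical degree is greater than `1`) for all `v ≠ 0`. Suppose that `N¹(X)` contains with
finite index a direct sum `Λ_1 ⊕ … ⊕ Λ_k` of groups of rank at least `2` such that `f_v^*` maps each
`Λ_i` into itself, and that `r = ρ - k`. (The classes `u j` are a basis of the sum, and `u j` is in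
`Λ_i` for `i = β j`.) For `k = 1` the condition is `r = ρ - 1`.

Then the nef cone and the closed movable cone of `X` are equal to the closure of the effective cone,
they are simplicial cones, generated by a basis `b` of `N¹(X) ⊗ ℝ` with `b j` in `Λ_i ⊗ ℝ` for
`i = β j`, and they contain `Eff(X)`. The group `Aut(X)`, every group of automorphisms which contains
the maps `f_v` (for instance the group `Aut(X, Δ)`, if the maps `f_v` preserve the divisor `Δ`), the
group `PsAut(X)` and every group of pseudo-automorphisms which contains the maps `f_v` (for instance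
`PsAut(X, Δ)`) have rational polyhedral fundamental domains on the cone `Nef(X)⁺ = Mov(X)⁺` generated
by the rational nef classes. This cone contains `Eff(X)`, with equality if and only if every
`Λ_i ⊗ ℝ` contains a nonzero effective class, and in this case both parts of the cone conjecture
hold, for all these groups. -/
theorem Pool.Agent.Results.MP_ad47bb_ag.BlockRankPairs.result
    {K : Type} [Field K] [Algebra ℂ K] {N n r k ρ : ℕ} {y : Fin (N + 1) → K} (hy : NormalModel y)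
    (hn : Algebra.trdeg ℂ K = n) (hn0 : 0 < n) (hr : 0 < r)
    {c : Place ℂ K → Fin ρ → ℤ} (hc : PicardBasis y c)
    {φ : (Fin r → ℤ) → (K ≃ₐ[ℂ] K)} (hφ : ∀ u v, φ (u + v) = φ u * φ v)
    (haut : ∀ v, IsAut (φ v) y) (hent : ∀ v, v ≠ 0 → 1 < dynDegree (φ v) y n 1)
    {u : Fin ρ → Fin ρ → ℤ} (hu : LinearIndependent ℝ (fun j i => (u j i : ℝ)))
    {β : Fin ρ → Fin k} (hβ : ∀ i, ∃ j j', j ≠ j' ∧ β j = i ∧ β j' = i) (hρ : ρ = r + k)
    (hbl : ∀ v, PreservesBlocks y c u β (φ v)) :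
    nefCone y n c = closure (effCone y c) ∧ movCone y c = closure (effCone y c) ∧
    (∃ b : Fin ρ → Fin ρ → ℝ, LinearIndependent ℝ b ∧
      (∀ j, ∃ a : Fin ρ → ℝ, (∀ l, β l ≠ β j → a l = 0) ∧ b j = comb u a) ∧
      (∀ x, x ∈ nefCone y n c ↔ ∃ a : Fin ρ → ℝ, (∀ j, 0 ≤ a j) ∧ x = ∑ j, a j • b j) ∧
      ∀ x, x ∈ ratHull (nefCone y n c) ↔ ∃ a : Fin ρ → ℝ, (∀ j, 0 ≤ a j) ∧
        (∀ j j', β j = β j' → a j = 0 → a j' = 0) ∧ x = ∑ j, a j • b j) ∧
    effCone y c ⊆ ratHull (nefCone y n c) ∧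
    ((∀ i, ∃ a : Fin ρ → ℝ, a ≠ 0 ∧ (∀ l, β l ≠ i → a l = 0) ∧ comb u a ∈ effCone y c) ↔
      effCone y c = ratHull (nefCone y n c)) ∧
    (∀ G : Subgroup (K ≃ₐ[ℂ] K), (∀ v, φ v ∈ G) → (∀ ψ ∈ G, PseudoAut ψ y) →
      HasFundDomain {T | ∃ ψ ∈ G, IsPullBack y c ψ T} (ratHull (nefCone y n c))) ∧
    ((∀ i, ∃ a : Fin ρ → ℝ, a ≠ 0 ∧ (∀ l, β l ≠ i → a l = 0) ∧ comb u a ∈ effCone y c) →
      HasFundDomain {T | ∃ ψ, IsAut ψ y ∧ IsPullBack y c ψ T} (nefCone y n c ∩ effCone y c) ∧
      HasFundDomain {T | ∃ ψ, PseudoAut ψ y ∧ IsPullBack y c ψ T} (movCone y c ∩ effCone y c) ∧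
      (∀ G : Subgroup (K ≃ₐ[ℂ] K), (∀ v, φ v ∈ G) → (∀ ψ ∈ G, IsAut ψ y) →
        HasFundDomain {T | ∃ ψ ∈ G, IsPullBack y c ψ T} (nefCone y n c ∩ effCone y c)) ∧
      ∀ G : Subgroup (K ≃ₐ[ℂ] K), (∀ v, φ v ∈ G) → (∀ ψ ∈ G, PseudoAut ψ y) →
        HasFundDomain {T | ∃ ψ ∈ G, IsPullBack y c ψ T} (movCone y c ∩ effCone y c)) := by
  have hps := fun v => isAut_psM hy (haut v)
  have h := full_nef hy hn hn0 hr hc (𝒮 := autGroup y) (fun _ h => h) hφ haut hent hu hβ hρ hbl
  have h' := full_mov hy hn hn0 hr hc (𝒮 := psGroup y) (fun _ h => h) hφ hps hent hu hβ hρ hbl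
  have hnm : nefCone y n c = movCone y c := by rw [h.eq, h'.eq]
  have hE : nefCone y n c ∩ effCone y c = effCone y c :=
    Set.inter_eq_right.2 (h.eq ▸ subset_closure)
  have h1 := h.sub
  have h2 := h.iff
  rw [hE] at h1 h2
  refine ⟨h.eq, h'.eq, h.desc, h1, h2, fun G hG hG' => ?_, fun hb => ⟨h.fde hb, h'.fde hb,
    fun G hG hG' => (full_nef hy hn hn0 hr hc hG' hφ hG hent hu hβ hρ hbl).fde hb,
    fun G hG hG' => (full_mov hy hn hn0 hr hc hG' hφ hG hent hu hβ hρ hbl).fde hb⟩⟩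
  rw [hnm]
  exact (full_mov hy hn hn0 hr hc hG' hφ hG hent hu hβ hρ hbl).fd
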