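import Pool.Agent.Run7.h334.CQ.Abs

set_option autoImplicit false

/-!
# Both cone conjectures for klt Calabi-Yau pairs pass to finite quotients and products

Let `(X, Δ)` be a `ℚ`-factorial klt Calabi-Yau pair over an algebraically closed field of
characteristic zero, let `H` be a finite group of automorphisms of `X` which preserve `Δ`, and let
`Y = X / H` with the divisor `Δ'` such that `K_X + Δ` is the pull back of `K_Y + Δ'`. The theorem says
that both parts of Q1, (a) for `Aut(X)` on `Nef^e(X)` and (b) for `PsAut(X)` on `Mov^e(X)`, pass from
`(X, Δ)` to `(Y, Δ')` and to products for which `N¹` is the direct sum of the spaces of the factors.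

The groups `Aut(X)` and `PsAut(X)` need not preserve `Δ`, and the kernel `K` of the action of
`PsAut(X)` on `N¹(X)` is an algebraic group which can have a linear part: `Aut⁰(X)` is not an abelian
variety in general, for instance for toric `X`. The proof uses of this kernel only that a finite
group has, up to conjugation by elements of `K`, finitely many homomorphisms `h ↦ g h g⁻¹` which are
the identity modulo `K`; this is true for all algebraic groups in characteristic zero, as the orbits
of the identity component of `K` on the scheme `Hom(H, K H)` of finite type are open. Together with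
the finiteness of the set of the elements of the image of the group in `GL(N¹(X))` which fix an
interior class of a given finitely generated cone (Dickson's lemma; from the starting repository) it
implies that the centraliser of `H` moves all ample (big and movable) classes of `Y` into one of
finitely many rational polyhedral cones.

`IsCone`, `IsLattice`, `HasDegree`, `IsConePair`, `HasFundDomain`, `IsLin`, `IsLinIso`,
`IsLinAction`, `Variety`, `ConeConj`, `Preserves`, `IsPullBack`, `IsQuotient` and `IsProduct` are
defined in `Pool.Agent.Run7.h334.CQ.Defs`; `FiniteLifts`, `IsFine` and `Gen` in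
`Pool.Agent.Run7.h334.CQ.AbsDefs`; `cone` in `Pool.Agent.Y167.ConeDef`.
-/

open Run7.h334.CQ Run7.h334.CQ.Variety

/-- Let `V` be the class of all klt Calabi-Yau pairs `(X, Δ)` as in Q1. For such a pair let `D₁ X`
consist of `N = N¹(X)`, the group `L` of the classes of line bundles, the nef cone `C`, the effective
cone `E`, and the group `G = Aut(X)`; let `D₂ X` consist of `N`, `L`, the closed movable cone `C`, the
effective cone `E`, and the group `G = PsAut(X)`.

(1) If `(X, Δ)` satisfies (a) then so does its quotient by every finite group `H` of automorphisms of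
`X` (which preserve `Δ`); if it satisfies (b) then so does the quotient.

(2) Both (a) and (b) pass to products.

(3) If all pairs in `F` satisfy (a) then so do all pairs in the smallest class which contains `F` and
is closed under products and finite quotients; and the same for (b). -/
theorem Pool.Agent.Results.MP_ad47bb_ag.QuotientsOfPairs.result {V : Type}
    {D₁ D₂ : V → Variety} (h₁ : ∀ X, (D₁ X).IsFine) (h₂ : ∀ X, (D₂ X).IsFine) :
    (∀ X Y : V, (∀ H : Subgroup (D₁ X).G, Finite H → (D₁ X).IsQuotient H (D₁ Y) →
        (D₁ X).ConeConj → (D₁ Y).ConeConj) ∧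
      ∀ H : Subgroup (D₂ X).G, Finite H → (D₂ X).IsQuotient H (D₂ Y) →
        (D₂ X).ConeConj → (D₂ Y).ConeConj) ∧
    (∀ (X : V) (I : Type) (S : I → V), Finite I →
      ((D₁ X).IsProduct (fun i => D₁ (S i)) → (∀ i, (D₁ (S i)).ConeConj) → (D₁ X).ConeConj) ∧
      ((D₂ X).IsProduct (fun i => D₂ (S i)) → (∀ i, (D₂ (S i)).ConeConj) → (D₂ X).ConeConj)) ∧
    ∀ F : Set V, ((∀ S ∈ F, (D₁ S).ConeConj) → ∀ X, Gen D₁ F X → (D₁ X).ConeConj) ∧
      ((∀ S ∈ F, (D₂ S).ConeConj) → ∀ X, Gen D₂ F X → (D₂ X).ConeConj) := by
  refine ⟨fun X Y => ⟨fun H hH hq h => Fine.quotient (h₁ X) (h₁ Y) hH hq h,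
    fun H hH hq h => Fine.quotient (h₂ X) (h₂ Y) hH hq h⟩, fun X I S hI => ?_,
    fun F => ⟨fun hF X hX => Fine.gen h₁ hF hX, fun hF X hX => Fine.gen h₂ hF hX⟩⟩
  have := Fintype.ofFinite I
  exact ⟨fun hp h => Fine.product (h₁ X) (fun i => h₁ (S i)) hp h,
    fun hp h => Fine.product (h₂ X) (fun i => h₂ (S i)) hp h⟩
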