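import Pool.Agent.Run7.h323.CC.MovFin

set_option autoImplicit false

/-!
# The cone conjecture for klt pairs on toric bundles over quotients of complex tori

Let `X = V / Γ` be a quotient of a complex torus by any finite group, of any dimension (the group may
contain reflections). Let `Y → X` be a toric bundle: the fibre is the smooth complete toric variety
with the rays `u i`, and the twists are given by arbitrary line bundles `c i` on `X`. Suppose that `Y`
is projective. Let `(Y, Δ)` be a Kawamata log terminal pair with real coefficients, such that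
`K_Y + Δ` is numerically trivial. The components of `Δ` are arbitrary divisors on `Y`. The theorem
says that both cones `Nef^e(Y)` and `Mov^e(Y)` have a rational polyhedral fundamental domain.

The proof: the coefficients of the sections which define the components of `Δ` are sections of line
bundles on `X`. By the integrability condition at the points of the torus invariant strata, for
each direction in the lattice of the fan some exponents are on the negative side. Since `K_Y + Δ` is
numerically trivial and the Chern forms of the coefficients are semidefinite, the Chern forms of the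
coefficients and of all line bundles `∏ c_i ^ ⟨q, u_i⟩` vanish in the directions parallel to all
mirrors of `Γ`, and these line bundles are trivial on a sublattice of finite index. Hence the
automorphisms of `X` given by units of a subgroup of finite index lift to `Y`, and by Liouville's
theorem the lifts fix all components of `Δ`. An effective class `x` is in `Mov^e(Y)` if and only if for
all `i` it is the sum of a nonnegative combination of the divisors `D_k`, `k ≠ i`, and of a nef class
of `X`: a section which does not vanish identically on `D_i` has a monomial without the variable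
`x_i`, and conversely, after adding a small ample class, rational approximations of the coefficients
and the global generation of ample line bundles on `X` give monomial sections without common zeros
outside the points at which two of the coordinates vanish. The cones are products of a rational
polyhedral cone, fixed by the lifted automorphisms, and of a cone of semidefinite forms, on which the
units act; for this cone the reduction theory of the starting repository (`Pool.Agent.Y167`) gives
finitely many generators of a covering. A Dirichlet domain is a fundamental domain.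

The definitions for toric bundles are in `Pool.Agent.Run7.h323.CC.Defs` (`N1Y`, `IsClassY`, `integral`,
`IsSum`, `nefCone`, `effective`, `effCone`, `IsAmple`, `EffDivY`, `NumTrivialY`, `IsKltY`, `Fixes`),
`Pool.Agent.Run7.h323.CC.Stm` (`NY`, `integralY`, `nefY`, `effY`, `IsProjective`, `Aff`, `Elt`,
`IsConj`, `IsAut`, `resForm`, `IsPull`, `HasDomain`, `HasAll`), `Pool.Agent.Run7.h323.CC.MovStm`
(`CodimTwo`, `Cox`, `baseLocus`, `movCls`, `coneOf`, `clMov`, `movEffY`, `Commens`,
`PreservesLattice`),
`Pool.Agent.Run7.h323.TQ.Defs` (`IsMax`) and `Pool.Agent.Q47.TB.Defs` (`IsSmoothFan`, `LinEquiv`,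
`IsSection`). In the absolute case the linear subspace `E` of `V` of the general definitions is `V`
itself, embedded by the identity map `idV V`. The others are in `Pool.Agent.W594.SYZ.Defs2`,
`Pool.Agent.W594.SYZ.TQDefs`, `Pool.Agent.TH735.AQ.MirDefs`, `Pool.Agent.Y167.Defs`,
`Pool.Agent.Y167.Stm` and `Pool.Agent.Y167.ConeDef`.
-/

namespace Pool.Agent.Results.MP_ad47bb_ag.ToricBundles

open Pool.Agent.W594.SYZ2 Pool.Agent.TH735.AQ Q47.TB Run7.h323.CC
open Pool.Agent.Y167 (AffGrp)
open Pool.Agent.Y167.CC (LinGrp Preserves)

section

variable {V : Type*} [NormedAddCommGroup V] [NormedSpace ℂ V] {Γ : AffGrp V} {ι κ : Type*}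
  [Fintype ι] [Fintype κ] {n : ℕ}

/-- The space `N^1(Y)`. -/
abbrev NS (u : ι → Fin n → ℤ) (Γ : AffGrp V) : Type _ := NY u Γ (idV V)

/-- The cone `Nef^e(Y)` of nef and effective classes. -/
def nefEff (u : ι → Fin n → ℤ) (S : Set (Set ι)) (c : ι → LineBundle Γ) (Hc : ι → V → V → ℂ) :
    Set (NS u Γ) := nefY u (idV V) S Hc Γ ∩ effY u (idV V) c

/-- `g` is the pullback on `N^1(Y)` by an automorphism of `Y` which is induced by a map
`(v, x) ↦ (f v, φ(v) x)` and maps the components of `Δ` to themselves. -/
def IsPullY {u : ι → Fin n → ℤ} {c : ι → LineBundle Γ} (Hc : ι → V → V → ℂ) (Δ : EffDivY u c κ)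
    (g : Lin1 u Γ (idV V)) : Prop :=
  ∃ f φ, IsAut u c f φ ∧ Fixes Δ f φ ∧ IsPull Hc f g

/-- `𝒢` is a group of linear automorphisms of `N^1(Y)` which preserves the integral classes and the
nef cone, and which contains the pullbacks by all automorphisms of `Y` which are induced by maps
`(v, x) ↦ (f v, φ(v) x)` and map the components of `Δ` to themselves. The images of `Aut(Y)` and of
`Aut(Y, Δ)` have these properties. -/
structure IsAutGroup {u : ι → Fin n → ℤ} (S : Set (Set ι)) {c : ι → LineBundle Γ}
    (Hc : ι → V → V → ℂ) (Δ : EffDivY u c κ) (𝒢 : LinGrp (NS u Γ)) : Prop where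
  int : Preserves 𝒢 (integralY u (idV V) Γ)
  nef : Preserves 𝒢 (nefY u (idV V) S Hc Γ)
  aff : HasAll 𝒢 (IsPullY Hc Δ)

/-- `𝒢` is a group of linear automorphisms of `N^1(Y)` which preserves a group of classes
commensurable with the group of the integral classes and the cone `Mov^e(Y)`, and which contains the
pullbacks by all automorphisms of `Y` which are induced by maps `(v, x) ↦ (f v, φ(v) x)` and map the
components of `Δ` to themselves. The images of `PsAut(Y)` and of `PsAut(Y, Δ)` have these
properties. -/
structure IsPsAutGroup {u : ι → Fin n → ℤ} (S : Set (Set ι)) {c : ι → LineBundle Γ}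
    (Hc : ι → V → V → ℂ) (Δ : EffDivY u c κ) (𝒢 : LinGrp (NS u Γ)) : Prop where
  int : PreservesLattice 𝒢 (integralY u (idV V) Γ)
  mov : Preserves 𝒢 (movEffY u S c)
  aff : HasAll 𝒢 (IsPullY Hc Δ)

end

/-- Let `X = V / Γ` be a torus quotient and `Y → X` the toric bundle given by the smooth complete fan
with the rays `u i` and the cones `S` and by the line bundles `c i` on `X` with the Chern forms `Hc i`.
Suppose that `Y` is projective. Let `Δ` be an effective divisor with real coefficients on `Y` such
that `K_Y + Δ` is numerically trivial and `(Y, Δ)` is Kawamata log terminal (it is enough that this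
holds for the restriction to one fibre of `Y → X`). (a) There is a finite set `T` of integral classes
such that the cone spanned by `T` is contained in `Nef^e(Y)` and is a fundamental domain for the
action of `𝒢` on `Nef^e(Y)`, for all groups `𝒢` as above, for instance for the images of `Aut(Y)` and
`Aut(Y, Δ)`. (b) The same holds for the cone `Mov^e(Y)` and for instance for the images of `PsAut(Y)`
and `PsAut(Y, Δ)`. -/
theorem result {V : Type*} [NormedAddCommGroup V] [NormedSpace ℂ V] [FiniteDimensional ℂ V]
    (Γ : AffGrp V) (hΓ : IsTorusQuotient Γ)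
    {ι κ : Type*} [Fintype ι] [Fintype κ] {n : ℕ} (u : ι → Fin n → ℤ) (S : Set (Set ι))
    (hS : IsSmoothFan u S) (c : ι → LineBundle Γ) (Hc : ι → V → V → ℂ)
    (hc : ∀ i, IsChernForm (c i) (Hc i)) (hproj : IsProjective u S Γ Hc)
    (Δ : EffDivY u c κ) (hΔ : NumTrivialY Hc (idV V) Δ) (hklt : IsKltY S Δ) :
    (∀ 𝒢 : LinGrp (NS u Γ), IsAutGroup S Hc Δ 𝒢 →
      HasDomain 𝒢 (integralY u (idV V) Γ) (nefEff u S c Hc)) ∧
    ∀ 𝒢 : LinGrp (NS u Γ), IsPsAutGroup S Hc Δ 𝒢 →
      HasDomain 𝒢 (integralY u (idV V) Γ) (movEffY u S c) := by
  have hP : Pre Γ (idV V) :=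
    ⟨hΓ, fun _ _ h => h, fun γ _ e => ⟨γ.linear e, rfl⟩, hΓ.span_top⟩
  obtain ⟨σ, hσ, -⟩ := Run7.h323.TQ.exists_max hS.empty_mem
  refine ⟨fun 𝒢 h𝒢 => ?_, fun 𝒢 h𝒢 =>
    (movFin hS hP hc hproj hΔ hklt 𝒢 h𝒢.int h𝒢.mov h𝒢.aff).1⟩
  refine (mainNY hS hP hc hproj hΔ hklt (𝒯 := {σ | Run7.h323.TQ.IsMax S σ}) ⟨σ, hσ⟩
    (fun τ hτ => ⟨τ, hτ, subset_rfl⟩) 𝒢 h𝒢.int h𝒢.nef ?_).1
  rintro g ⟨f, φ, h1, -, h3, h4⟩
  exact h𝒢.aff g ⟨f, φ, h1, h3, h4⟩

end Pool.Agent.Results.MP_ad47bb_ag.ToricBundles
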